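import Pool.Agent.N311.SH.Stm

/-! Project SH (helper311), part OR: `z ↦ l * conj z` is not isotopic to the identity of the
Riemann sphere.  The invariant is the cross ratio of the images of four points, written as the
trace of a product of projections. -/

set_option autoImplicit false
open Set Metric Filter Topology MeasureTheory
open scoped OnePoint

namespace Pool.Agent.N137.SH2

open Pool.Agent.N311.SH

/-! ### A lemma on continuous logarithms -/

theorem log_near {X : Type*} [TopologicalSpace X] (f g : X → ℂ) (hf : Continuous f)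
    (hg : Continuous g) (hf0 : ∀ x, f x ≠ 0) (h : ∀ x, ‖g x - f x‖ < ‖f x‖) :
    ∃ L : X → ℂ, Continuous L ∧ ∀ x, g x = f x * Complex.exp (L x) := by
  have hs : ∀ x, g x / f x ∈ Complex.slitPlane := by
    intro x
    have h1 : ‖g x / f x - 1‖ < 1 := by
      have : g x / f x - 1 = (g x - f x) / f x := by field_simp [hf0 x]
      rw [this, norm_div, div_lt_one (norm_pos_iff.2 (hf0 x))]
      exact h x
    have := Complex.mem_slitPlane_of_norm_lt_one h1
    simpa using this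
  refine ⟨fun x => Complex.log (g x / f x), ?_, ?_⟩
  · rw [continuous_iff_continuousAt]
    intro x
    have : ContinuousAt (fun x => g x / f x) x := hg.continuousAt.div hf.continuousAt (hf0 x)
    exact this.clog (hs x)
  · intro x
    rw [Complex.exp_log (Complex.slitPlane_ne_zero (hs x))]
    field_simp [hf0 x]

theorem exists_log {X : Type*} [TopologicalSpace X] [CompactSpace X]
    (χ : unitInterval × X → ℂ) (hχ : Continuous χ) (h0 : ∀ p, χ p ≠ 0) :
    ∃ L : X → ℂ, Continuous L ∧ ∀ x, χ (1, x) = χ (0, x) * Complex.exp (L x) := by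
  let W : Set unitInterval :=
    {t | ∃ L : X → ℂ, Continuous L ∧ ∀ x, χ (t, x) = χ (0, x) * Complex.exp (L x)}
  have hsl : ∀ t, Continuous (fun x => χ (t, x)) := fun t =>
    hχ.comp (Continuous.prodMk_right t)
  have key : ∀ t0 : unitInterval, ∀ᶠ t in 𝓝 t0, ∀ x : X,
      ‖χ (t, x) - χ (t0, x)‖ < ‖χ (t0, x)‖ := by
    intro t0
    have h1 : ∀ x ∈ (univ : Set X), ∀ᶠ z : unitInterval × X in 𝓝 t0 ×ˢ 𝓝 x,
        ‖χ (z.1, z.2) - χ (t0, z.2)‖ < ‖χ (t0, z.2)‖ := by
      intro x _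
      rw [← nhds_prod_eq]
      have hc : Continuous (fun z : unitInterval × X =>
          ‖χ (t0, z.2)‖ - ‖χ (z.1, z.2) - χ (t0, z.2)‖) := by
        have a1 : Continuous (fun z : unitInterval × X => χ (t0, z.2)) :=
          (hsl t0).comp continuous_snd
        have a2 : Continuous (fun z : unitInterval × X => χ (z.1, z.2)) := hχ
        exact a1.norm.sub (a2.sub a1).norm
      have hpos : (0 : ℝ) < (fun z : unitInterval × X =>
          ‖χ (t0, z.2)‖ - ‖χ (z.1, z.2) - χ (t0, z.2)‖) (t0, x) := by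
        simp [h0 (t0, x)]
      filter_upwards [hc.continuousAt.eventually (lt_mem_nhds hpos)] with z hz
      have hz' : (0 : ℝ) < ‖χ (t0, z.2)‖ - ‖χ (z.1, z.2) - χ (t0, z.2)‖ := hz
      linarith
    have := isCompact_univ.eventually_forall_of_forall_eventually (x₀ := t0)
      (P := fun t x => ‖χ (t, x) - χ (t0, x)‖ < ‖χ (t0, x)‖) (by
        intro x hx
        rw [nhds_prod_eq]
        exact h1 x hx)
    filter_upwards [this] with t ht x using ht x (mem_univ x)
  have step : ∀ t0 : unitInterval, ∀ᶠ t in 𝓝 t0, (t ∈ W ↔ t0 ∈ W) := by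
    intro t0
    filter_upwards [key t0] with t ht
    obtain ⟨M, hM, hM2⟩ := log_near (fun x => χ (t0, x)) (fun x => χ (t, x)) (hsl t0) (hsl t)
      (fun x => h0 _) ht
    constructor
    · rintro ⟨L, hL, hL2⟩
      refine ⟨fun x => L x - M x, hL.sub hM, fun x => ?_⟩
      have e1 := hL2 x
      have e2 := hM2 x
      rw [Complex.exp_sub, ← mul_div_assoc, ← e1, e2, mul_div_assoc,
        div_self (Complex.exp_ne_zero _), mul_one]
    · rintro ⟨L, hL, hL2⟩
      refine ⟨fun x => L x + M x, hL.add hM, fun x => ?_⟩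
      have e1 := hL2 x
      have e2 := hM2 x
      rw [Complex.exp_add, ← mul_assoc, ← e1, e2]
  have hopen : IsOpen W := by
    rw [isOpen_iff_mem_nhds]
    intro t ht
    filter_upwards [step t] with s hs using hs.2 ht
  have hclosed : IsClosed W := by
    rw [← isOpen_compl_iff, isOpen_iff_mem_nhds]
    intro t ht
    filter_upwards [step t] with s hs
    exact fun h => ht (hs.1 h)
  have h0W : (0 : unitInterval) ∈ W := ⟨fun _ => 0, continuous_const, fun x => by simp⟩
  have hW : W = univ := IsClopen.eq_univ ⟨hclosed, hopen⟩ ⟨0, h0W⟩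
  have h1W : (1 : unitInterval) ∈ W := by rw [hW]; exact mem_univ _
  exact h1W

/-- there is no continuous logarithm of `C * ζ ^ 2` on the circle -/
theorem no_log_sq (C : ℝ) (hC : 0 < C) (L : Circle → ℂ) (hL : Continuous L)
    (h : ∀ z : Circle, Complex.exp (L z) = C * (z : ℂ) ^ 2) : False := by
  let g : ℝ → ℝ := fun x => ((L (Circle.exp x)).im - 2 * x) / (2 * Real.pi)
  have hg : Continuous g := by
    have h1 : Continuous fun x : ℝ => (L (Circle.exp x)).im :=
      Complex.continuous_im.comp (hL.comp Circle.exp.continuous)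
    exact (h1.sub (continuous_const.mul continuous_id)).div_const _
  have hpi : (0 : ℝ) < 2 * Real.pi := by positivity
  have hint : ∀ x, ∃ n : ℤ, g x = n := by
    intro x
    have h1 := h (Circle.exp x)
    have h2 : Complex.exp (L (Circle.exp x) - (Real.log C + 2 * x * Complex.I : ℂ)) = 1 := by
      rw [Complex.exp_sub, h1, Complex.exp_add, Circle.coe_exp, ← Complex.exp_nat_mul,
        ← Complex.ofReal_exp, Real.exp_log hC]
      have : Complex.exp ((2 : ℕ) * (x * Complex.I)) = Complex.exp (2 * x * Complex.I) := by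
        congr 1; push_cast; ring
      rw [this]
      apply div_self
      exact mul_ne_zero (by exact_mod_cast hC.ne') (Complex.exp_ne_zero _)
    rw [Complex.exp_eq_one_iff] at h2
    obtain ⟨n, hn⟩ := h2
    refine ⟨n, ?_⟩
    have h3 := congrArg Complex.im hn
    simp only [Complex.sub_im, Complex.add_im, Complex.ofReal_im, Complex.mul_im, Complex.mul_re,
      Complex.I_re, Complex.I_im, Complex.ofReal_re, Complex.intCast_re, Complex.intCast_im,
      Complex.re_ofNat, Complex.im_ofNat] at h3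
    show ((L (Circle.exp x)).im - 2 * x) / (2 * Real.pi) = n
    rw [div_eq_iff hpi.ne']
    linarith
  have e1 : g (2 * Real.pi) = g 0 - 2 := by
    show ((L (Circle.exp (2 * Real.pi))).im - 2 * (2 * Real.pi)) / (2 * Real.pi) =
      ((L (Circle.exp 0)).im - 2 * 0) / (2 * Real.pi) - 2
    rw [Circle.exp_two_pi, Circle.exp_zero]
    field_simp
    ring
  obtain ⟨n, hn⟩ := hint 0
  have h3 : (n : ℝ) - 1 / 2 ∈ range g := by
    apply mem_range_of_exists_le_of_exists_ge hg
    · exact ⟨2 * Real.pi, by rw [e1, hn]; linarith⟩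
    · exact ⟨0, by rw [hn]; linarith⟩
  obtain ⟨x, hx⟩ := h3
  obtain ⟨m, hm⟩ := hint x
  rw [hm] at hx
  have h4 : (2 * m : ℝ) = 2 * n - 1 := by linarith
  have h5 : (2 * m : ℤ) = 2 * n - 1 := by exact_mod_cast h4
  omega

/-! ### Coordinates -/

noncomputable def sS (x : Sph) : ℂ := OnePoint.elim x 0 (fun z => (1 + ‖z‖ ^ 2 : ℂ)⁻¹)
noncomputable def pP (x : Sph) : ℂ := 1 - sS x
noncomputable def qQ (x : Sph) : ℂ := OnePoint.elim x 0 (fun z => z * (1 + ‖z‖ ^ 2 : ℂ)⁻¹)

noncomputable def x1 (x : Sph) : ℂ :=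
  OnePoint.elim x 1 (fun z => z * ((Real.sqrt (1 + ‖z‖ ^ 2))⁻¹ : ℝ))
noncomputable def x2 (x : Sph) : ℂ :=
  OnePoint.elim x 0 (fun z => ((Real.sqrt (1 + ‖z‖ ^ 2))⁻¹ : ℝ))

@[simp] theorem sS_coe (z : ℂ) : sS (z : Sph) = (1 + ‖z‖ ^ 2 : ℂ)⁻¹ := rfl
@[simp] theorem sS_infty : sS ∞ = 0 := rfl
@[simp] theorem qQ_coe (z : ℂ) : qQ (z : Sph) = z * (1 + ‖z‖ ^ 2 : ℂ)⁻¹ := rfl
@[simp] theorem qQ_infty : qQ ∞ = 0 := rfl
@[simp] theorem x1_coe (z : ℂ) : x1 (z : Sph) = z * ((Real.sqrt (1 + ‖z‖ ^ 2))⁻¹ : ℝ) := rfl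
@[simp] theorem x1_infty : x1 ∞ = 1 := rfl
@[simp] theorem x2_coe (z : ℂ) : x2 (z : Sph) = ((Real.sqrt (1 + ‖z‖ ^ 2))⁻¹ : ℝ) := rfl
@[simp] theorem x2_infty : x2 ∞ = 0 := rfl

theorem one_add_ne (z : ℂ) : (1 + ‖z‖ ^ 2 : ℂ) ≠ 0 := by
  have : (0 : ℝ) < 1 + ‖z‖ ^ 2 := by positivity
  exact_mod_cast this.ne'

theorem continuous_sS : Continuous sS := by
  rw [OnePoint.continuous_iff]
  constructor
  · rw [sS_infty, coclosedCompact_eq_cocompact, ← Metric.cobounded_eq_cocompact]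
    rw [tendsto_zero_iff_norm_tendsto_zero]
    have h1 : Tendsto (fun z : ℂ => (1 + ‖z‖ ^ 2)⁻¹) (Bornology.cobounded ℂ) (𝓝 0) := by
      apply Tendsto.inv_tendsto_atTop
      apply tendsto_atTop_add_const_left
      exact (tendsto_pow_atTop (by norm_num)).comp tendsto_norm_cobounded_atTop
    refine h1.congr fun z => ?_
    rw [sS_coe, norm_inv]
    congr 1
    have : (1 + ‖z‖ ^ 2 : ℂ) = ((1 + ‖z‖ ^ 2 : ℝ) : ℂ) := by push_cast; ring
    rw [this, Complex.norm_real, Real.norm_of_nonneg (by positivity)]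
  · have : Continuous fun z : ℂ => (1 + ‖z‖ ^ 2 : ℂ)⁻¹ := by
      apply Continuous.inv₀ _ one_add_ne
      fun_prop
    exact this

theorem continuous_qQ : Continuous qQ := by
  rw [OnePoint.continuous_iff]
  constructor
  · rw [qQ_infty, coclosedCompact_eq_cocompact, ← Metric.cobounded_eq_cocompact]
    rw [tendsto_zero_iff_norm_tendsto_zero]
    have h1 : Tendsto (fun z : ℂ => (‖z‖)⁻¹) (Bornology.cobounded ℂ) (𝓝 0) :=
      Tendsto.inv_tendsto_atTop tendsto_norm_cobounded_atTop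
    refine squeeze_zero (fun _ => norm_nonneg _) (fun z => ?_) h1
    rw [qQ_coe, norm_mul, norm_inv]
    have : (1 + ‖z‖ ^ 2 : ℂ) = ((1 + ‖z‖ ^ 2 : ℝ) : ℂ) := by push_cast; ring
    rw [this, Complex.norm_real, Real.norm_of_nonneg (by positivity)]
    rcases eq_or_ne z 0 with rfl | hz
    · simp
    · have hz' : 0 < ‖z‖ := norm_pos_iff.2 hz
      rw [← div_eq_mul_inv, div_le_iff₀ (by positivity), inv_mul_eq_div, le_div_iff₀ hz']
      nlinarith
  · have : Continuous fun z : ℂ => z * (1 + ‖z‖ ^ 2 : ℂ)⁻¹ := by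
      apply continuous_id.mul
      apply Continuous.inv₀ _ one_add_ne
      fun_prop
    exact this

theorem continuous_pP : Continuous pP := continuous_const.sub continuous_sS

theorem sqrt_sq (z : ℂ) : (((Real.sqrt (1 + ‖z‖ ^ 2))⁻¹ : ℝ) : ℂ) *
    (((Real.sqrt (1 + ‖z‖ ^ 2))⁻¹ : ℝ) : ℂ) = (1 + ‖z‖ ^ 2 : ℂ)⁻¹ := by
  have h : (0 : ℝ) ≤ 1 + ‖z‖ ^ 2 := by positivity
  have h2 : (Real.sqrt (1 + ‖z‖ ^ 2))⁻¹ * (Real.sqrt (1 + ‖z‖ ^ 2))⁻¹ = (1 + ‖z‖ ^ 2)⁻¹ := by
    rw [← mul_inv, Real.mul_self_sqrt h]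
  have h3 := congrArg (fun r : ℝ => (r : ℂ)) h2
  simp only [Complex.ofReal_mul] at h3
  rw [h3]
  push_cast
  rfl

theorem sS_eq (x : Sph) : sS x = x2 x * (starRingEnd ℂ) (x2 x) := by
  induction x using OnePoint.rec with
  | infty => simp
  | coe z => rw [sS_coe, x2_coe, Complex.conj_ofReal, sqrt_sq]

theorem qQ_eq (x : Sph) : qQ x = x1 x * (starRingEnd ℂ) (x2 x) := by
  induction x using OnePoint.rec with
  | infty => simp
  | coe z => rw [qQ_coe, x2_coe, x1_coe, Complex.conj_ofReal, mul_assoc, sqrt_sq]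

theorem pP_eq (x : Sph) : pP x = x1 x * (starRingEnd ℂ) (x1 x) := by
  induction x using OnePoint.rec with
  | infty => simp [pP]
  | coe z =>
    rw [pP, sS_coe, x1_coe, map_mul, Complex.conj_ofReal]
    have h1 : z * (((Real.sqrt (1 + ‖z‖ ^ 2))⁻¹ : ℝ) : ℂ) *
        ((starRingEnd ℂ) z * (((Real.sqrt (1 + ‖z‖ ^ 2))⁻¹ : ℝ) : ℂ)) = (z * (starRingEnd ℂ) z) *
        ((((Real.sqrt (1 + ‖z‖ ^ 2))⁻¹ : ℝ) : ℂ) * (((Real.sqrt (1 + ‖z‖ ^ 2))⁻¹ : ℝ) : ℂ)) := by
      ring
    rw [h1, sqrt_sq, Complex.mul_conj, Complex.normSq_eq_norm_sq]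
    have := one_add_ne z
    push_cast
    field_simp
    ring

noncomputable def dt (x a : Sph) : ℂ := x1 x * x2 a - x2 x * x1 a

theorem x2_ne (z : ℂ) : (((Real.sqrt (1 + ‖z‖ ^ 2))⁻¹ : ℝ) : ℂ) ≠ 0 := by
  have : (0 : ℝ) < (Real.sqrt (1 + ‖z‖ ^ 2))⁻¹ := by positivity
  exact_mod_cast this.ne'

theorem dt_ne {x a : Sph} (h : x ≠ a) : dt x a ≠ 0 := by
  induction x using OnePoint.rec with
  | infty =>
    induction a using OnePoint.rec with
    | infty => exact absurd rfl h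
    | coe w =>
      simp only [dt, x1_infty, x2_infty, x2_coe, zero_mul, sub_zero, one_mul]
      exact x2_ne w
  | coe z =>
    induction a using OnePoint.rec with
    | infty =>
      simp only [dt, x1_infty, x2_infty, x2_coe, mul_zero, zero_sub, mul_one]
      exact neg_ne_zero.2 (x2_ne z)
    | coe w =>
      have hzw : z ≠ w := fun e => h (by rw [e])
      have : dt (z : Sph) (w : Sph) = (z - w) * ((((Real.sqrt (1 + ‖z‖ ^ 2))⁻¹ : ℝ) : ℂ) *
          (((Real.sqrt (1 + ‖w‖ ^ 2))⁻¹ : ℝ) : ℂ)) := by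
        simp only [dt, x1_coe, x2_coe]
        ring
      rw [this]
      exact mul_ne_zero (sub_ne_zero.2 hzw) (mul_ne_zero (x2_ne z) (x2_ne w))

/-- trace of `P_x (1 - P_a) P_b (1 - P_c)` -/
noncomputable def chi (x a b c : Sph) : ℂ :=
  (pP x * sS a - qQ x * (starRingEnd ℂ) (qQ a)) * (pP b * sS c - qQ b * (starRingEnd ℂ) (qQ c)) +
  (qQ x * pP a - pP x * qQ a) * ((starRingEnd ℂ) (qQ b) * sS c - sS b * (starRingEnd ℂ) (qQ c)) +
  ((starRingEnd ℂ) (qQ x) * sS a - sS x * (starRingEnd ℂ) (qQ a)) * (qQ b * pP c - pP b * qQ c) +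
  (sS x * pP a - (starRingEnd ℂ) (qQ x) * qQ a) * (sS b * pP c - (starRingEnd ℂ) (qQ b) * qQ c)

theorem chi_eq (x a b c : Sph) :
    chi x a b c = dt x c * (starRingEnd ℂ) (dt x a) * dt b a * (starRingEnd ℂ) (dt b c) := by
  simp only [chi, dt, pP_eq, qQ_eq, sS_eq, map_mul, map_sub, Complex.conj_conj]
  ring

theorem chi_ne {x a b c : Sph} (h1 : x ≠ a) (h2 : x ≠ c) (h3 : b ≠ a) (h4 : b ≠ c) :
    chi x a b c ≠ 0 := by
  rw [chi_eq]
  refine mul_ne_zero (mul_ne_zero (mul_ne_zero (dt_ne h2) ?_) (dt_ne h3)) ?_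
  · exact (map_ne_zero _).2 (dt_ne h1)
  · exact (map_ne_zero _).2 (dt_ne h4)

theorem continuous_chi {Y : Type*} [TopologicalSpace Y] {x a b c : Y → Sph} (hx : Continuous x)
    (ha : Continuous a) (hb : Continuous b) (hc : Continuous c) :
    Continuous fun y => chi (x y) (a y) (b y) (c y) := by
  have c1 := continuous_pP
  have c2 := continuous_sS
  have c3 := continuous_qQ
  have c4 : Continuous fun x => (starRingEnd ℂ) (qQ x) := Complex.continuous_conj.comp c3
  have p1 := c1.comp hx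
  have p2 := c1.comp ha
  have p3 := c1.comp hb
  have p4 := c1.comp hc
  have s1 := c2.comp hx
  have s2 := c2.comp ha
  have s3 := c2.comp hb
  have s4 := c2.comp hc
  have q1 := c3.comp hx
  have q2 := c3.comp ha
  have q3 := c3.comp hb
  have q4 := c3.comp hc
  have r1 := c4.comp hx
  have r2 := c4.comp ha
  have r3 := c4.comp hb
  have r4 := c4.comp hc
  simp only [Function.comp_def] at *
  unfold chi
  fun_prop

theorem chi_zero (z : ℂ) (hz : ‖z‖ = 1) :
    chi (z : Sph) ((0 : ℂ) : Sph) ((1 : ℂ) : Sph) ∞ = (starRingEnd ℂ) z / 4 := by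
  simp only [chi, pP, sS_coe, qQ_coe, sS_infty, qQ_infty, hz, map_mul, map_inv₀, map_add, map_one,
    map_pow, Complex.conj_ofReal, norm_zero, norm_one]
  simp
  norm_num
  ring

theorem chi_one (z : ℂ) (hz : ‖z‖ = 1) (l : ℝ) (hl : 0 < l) :
    chi (((l : ℂ) * (starRingEnd ℂ) z : ℂ) : Sph) ((0 : ℂ) : Sph) (((l : ℂ) : ℂ) : Sph) ∞ =
      (l ^ 2 / (1 + l ^ 2) ^ 2 : ℝ) * z := by
  have h1 : ‖(l : ℂ) * (starRingEnd ℂ) z‖ = l := by
    rw [norm_mul, RCLike.norm_conj, hz, mul_one, Complex.norm_real, Real.norm_of_nonneg hl.le]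
  have h2 : ‖(l : ℂ)‖ = l := by
    rw [Complex.norm_real, Real.norm_of_nonneg hl.le]
  simp only [chi, pP, sS_coe, qQ_coe, sS_infty, qQ_infty, h1, h2, map_mul, map_inv₀, map_add,
    map_one, map_pow, Complex.conj_ofReal, norm_zero, Complex.conj_conj]
  have h3 : (1 + (l : ℂ) ^ 2) ≠ 0 := by
    have : (0 : ℝ) < 1 + l ^ 2 := by positivity
    exact_mod_cast this.ne'
  simp
  field_simp

/-- OR -/
theorem orient : S_OR := by
  rintro l hl ⟨F, hF, hF0, hF1⟩
  let χ : unitInterval × Circle → ℂ := fun p =>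
    chi (F p.1 (((p.2 : ℂ)) : Sph)) (F p.1 ((0 : ℂ) : Sph)) (F p.1 ((1 : ℂ) : Sph)) (F p.1 ∞)
  have hχ : Continuous χ := by
    apply continuous_chi
    · have : Continuous fun p : unitInterval × Circle => (p.1, (((p.2 : ℂ)) : Sph)) :=
        continuous_fst.prodMk (OnePoint.continuous_coe.comp
          (continuous_subtype_val.comp continuous_snd))
      exact hF.comp this
    · exact hF.comp (continuous_fst.prodMk continuous_const)
    · exact hF.comp (continuous_fst.prodMk continuous_const)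
    · exact hF.comp (continuous_fst.prodMk continuous_const)
  have h0 : ∀ p, χ p ≠ 0 := by
    rintro ⟨t, z⟩
    have hinj := (F t).injective
    have hz : ‖(z : ℂ)‖ = 1 := Circle.norm_coe z
    apply chi_ne
    · apply hinj.ne
      intro h
      have := OnePoint.coe_injective h
      rw [this] at hz
      simp at hz
    · exact hinj.ne (OnePoint.coe_ne_infty _)
    · apply hinj.ne
      intro h
      have := OnePoint.coe_injective h
      exact one_ne_zero this
    · exact hinj.ne (OnePoint.coe_ne_infty _)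
  obtain ⟨L, hL, hL2⟩ := exists_log χ hχ h0
  have v0 : ∀ z : Circle, χ (0, z) = (starRingEnd ℂ) (z : ℂ) / 4 := by
    intro z
    show chi (F 0 (((z : ℂ)) : Sph)) (F 0 ((0 : ℂ) : Sph)) (F 0 ((1 : ℂ) : Sph)) (F 0 ∞) = _
    rw [hF0]
    exact chi_zero _ (Circle.norm_coe z)
  have v1 : ∀ z : Circle, χ (1, z) = (l ^ 2 / (1 + l ^ 2) ^ 2 : ℝ) * z := by
    intro z
    show chi (F 1 (((z : ℂ)) : Sph)) (F 1 ((0 : ℂ) : Sph)) (F 1 ((1 : ℂ) : Sph)) (F 1 ∞) = _
    rw [hF1, T_coe, T_coe, T_coe, T_infty, cj_true, cj_true, cj_true, map_zero, map_one, mul_zero,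
      mul_one]
    exact chi_one _ (Circle.norm_coe z) l hl
  have hC : (0 : ℝ) < 4 * (l ^ 2 / (1 + l ^ 2) ^ 2) := by positivity
  refine no_log_sq _ hC L hL fun z => ?_
  have h1 := hL2 z
  rw [v0, v1] at h1
  have hz : (z : ℂ) * (starRingEnd ℂ) (z : ℂ) = 1 := by
    rw [Complex.mul_conj, Complex.normSq_eq_norm_sq, Circle.norm_coe]
    norm_num
  have h2 : Complex.exp (L z) = 4 * z * ((starRingEnd ℂ) (z : ℂ) / 4 * Complex.exp (L z)) := by
    linear_combination (-(Complex.exp (L z))) * hz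
  rw [h2, ← h1]
  push_cast
  ring

end Pool.Agent.N137.SH2
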